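import Pool.Agent.R688.FPR.Glob

/-!
# Excellent regular rings are F-pure regular (MP_9ff724_al, Q1)

Every regular ring of prime characteristic which is J-2 (in particular every excellent regular
ring) is F-pure regular.
-/

set_option autoImplicit false

universe u

namespace Pool.Agent.Results.MP_9ff724_al.RegularFPure

open TensorProduct

/-- The regular locus of a ring `S`: the primes `q` such that `S_q` is a regular local ring. -/
def RegularLocus (S : Type u) [CommRing S] : Set (PrimeSpectrum S) :=
  {q | IsRegularLocalRing (Localization.AtPrime q.asIdeal)}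

/-- `R` is J-2: the regular locus of every finitely generated `R`-algebra is open.  This is one of
the conditions in the definition of an excellent ring. -/
def IsJ2 (R : Type u) [CommRing R] : Prop :=
  ∀ (S : Type u) [CommRing S] [Algebra R S], Algebra.FiniteType R S → IsOpen (RegularLocus S)

/-- `F^e_* R`: the additive group of `R`, regarded below as an `R`-module through the `e`-th
iterate `r ↦ r ^ (p ^ e)` of the Frobenius. -/
def FrobPush (R : Type u) [CommRing R] (_p _e : ℕ) : Type u := R

section

variable (R : Type u) [CommRing R] (p e : ℕ)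

instance : AddCommGroup (FrobPush R p e) := inferInstanceAs (AddCommGroup R)

/-- `r • F^e_* s = F^e_* (r ^ (p ^ e) * s)` -/
instance [ExpChar R p] : Module R (FrobPush R p e) :=
  Module.compHom R (iterateFrobenius R p e)

variable {R}

/-- the element `F^e_* s` of `F^e_* R` -/
def FrobPush.of (s : R) : FrobPush R p e := s

/-- the map `λ^e_c : R → F^e_* R`, `r ↦ F^e_* (c r ^ (p ^ e))` -/
def lam [ExpChar R p] (c : R) : R →ₗ[R] FrobPush R p e where
  toFun r := FrobPush.of p e (c * r ^ p ^ e)
  map_add' r s := by
    change c * (r + s) ^ p ^ e = c * r ^ p ^ e + c * s ^ p ^ e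
    rw [add_pow_expChar_pow, mul_add]
  map_smul' r s := by
    change c * (r * s) ^ p ^ e = iterateFrobenius R p e r * (c * s ^ p ^ e)
    rw [iterateFrobenius_def, mul_pow, mul_left_comm]

end

/-- A map `f : M → N` of `R`-modules is pure if `M ⊗ P → N ⊗ P` is injective for every
`R`-module `P`. -/
def IsPure {R : Type u} [CommRing R] {M N : Type u} [AddCommGroup M] [Module R M]
    [AddCommGroup N] [Module R N] (f : M →ₗ[R] N) : Prop :=
  ∀ (P : Type u) [AddCommGroup P] [Module R P], Function.Injective (f.rTensor P)

/-- `R` is F-pure regular: for each `c` in no minimal prime of `R`, some `λ^e_c` with `e ≥ 1` is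
pure. -/
def IsFPureRegular (R : Type u) [CommRing R] (p : ℕ) [ExpChar R p] : Prop :=
  ∀ c : R, (∀ q ∈ minimalPrimes R, c ∉ q) → ∃ e : ℕ, 1 ≤ e ∧ IsPure (lam p e c)

/-- A regular (noetherian) ring of prime characteristic which is J-2 is F-pure regular. In
particular every excellent regular ring of prime characteristic is F-pure regular. -/
theorem result (p : ℕ) [Fact p.Prime] (R : Type u) [CommRing R] [CharP R p] [IsRegularRing R]
    (hJ : IsJ2 R) : IsFPureRegular R p := by
  intro c hc
  obtain ⟨e, he, h⟩ := Pool.Agent.R688.FPR.global_pure.{u, u} p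
    (Pool.Agent.R688.FPR.open_of_J fun P _ => hJ (R ⧸ P) inferInstance) hc
  refine ⟨e, he, fun P _ _ => ?_⟩
  rw [injective_iff_map_eq_zero]
  intro z hz
  obtain ⟨x, rfl⟩ := (TensorProduct.lid R P).symm.surjective z
  have h1 : x = 0 := by
    apply h e le_rfl P x
    have h2 : FrobPush.of p e c ⊗ₜ[R] x = 0 := by
      have h3 : (lam p e c).rTensor P ((TensorProduct.lid R P).symm x) =
          FrobPush.of p e c ⊗ₜ[R] x := by
        rw [TensorProduct.lid_symm_apply, LinearMap.rTensor_tmul]
        congr 1
        change c * 1 ^ p ^ e = c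
        rw [one_pow, mul_one]
      rw [← h3]
      exact hz
    have h4 := congrArg (TensorProduct.comm R (FrobPush R p e) P) h2
    rw [TensorProduct.comm_tmul, map_zero] at h4
    exact h4
  rw [h1, map_zero]

end Pool.Agent.Results.MP_9ff724_al.RegularFPure
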